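import Pool.Agent.Helper97.TI.Defs

set_option autoImplicit false
open MvPolynomial

noncomputable section

namespace TI

section SYC

variable {κ : ℕ}

/-- the scaling automorphism -/
private def SYC_s (κ : ℕ) : RR κ →ₐ[ℂ] RR κ := aeval fun i => (2 : ℂ) • (X i : RR κ)

private theorem SYC_s_hom {n : ℕ} {p : RR κ} (hp : p.IsHomogeneous n) :
    SYC_s κ p = (2 : ℂ) ^ n • p := by
  have h1 : SYC_s κ p = ∑ m ∈ p.support, SYC_s κ (monomial m (coeff m p)) := by
    conv_lhs => rw [p.as_sum]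
    rw [map_sum]
  rw [h1]
  conv_rhs => rw [p.as_sum, Finset.smul_sum]
  refine Finset.sum_congr rfl fun m hm => ?_
  have hdeg := hp (MvPolynomial.mem_support_iff.1 hm)
  rw [SYC_s, aeval_monomial, Finsupp.prod]
  simp only [smul_pow]
  rw [monomial_eq, Finsupp.prod, Finset.prod_smul, Finset.prod_pow_eq_pow_sum]
  have h2 : ∑ i ∈ m.support, m i = n := by
    rw [← hdeg]
    simp [Finsupp.weight_apply, Finsupp.sum]
  rw [h2, Algebra.mul_smul_comm]
  rfl

private theorem SYC_mem_iff {𝔭 : Ideal (RR κ)}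
    (hhom : ∀ p ∈ 𝔭, ∀ i, homogeneousComponent i p ∈ 𝔭) (p : RR κ) :
    SYC_s κ p ∈ 𝔭 ↔ p ∈ 𝔭 := by
  have hs : ∀ i, SYC_s κ (homogeneousComponent i p) = (2 : ℂ) ^ i • homogeneousComponent i p :=
    fun i => SYC_s_hom (homogeneousComponent_isHomogeneous i p)
  have hsum : SYC_s κ p = ∑ i ∈ Finset.range (p.totalDegree + 1),
      (2 : ℂ) ^ i • homogeneousComponent i p := by
    conv_lhs => rw [← sum_homogeneousComponent p]
    rw [map_sum]
    exact Finset.sum_congr rfl fun i _ => hs i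
  constructor
  · intro h
    rw [← sum_homogeneousComponent p]
    refine Ideal.sum_mem _ fun i hi => ?_
    have h1 := hhom _ h i
    have h2 : homogeneousComponent i (SYC_s κ p) = (2 : ℂ) ^ i • homogeneousComponent i p := by
      rw [hsum, map_sum, Finset.sum_eq_single i]
      · rw [map_smul, homogeneousComponent_of_mem (homogeneousComponent_isHomogeneous i p),
          if_pos rfl]
      · intro j _ hj
        rw [map_smul, homogeneousComponent_of_mem (homogeneousComponent_isHomogeneous j p),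
          if_neg (Ne.symm hj), smul_zero]
      · intro hi'
        exact absurd hi hi'
    rw [h2] at h1
    have h3 : homogeneousComponent i p =
        C (((2 : ℂ) ^ i)⁻¹) * ((2 : ℂ) ^ i • homogeneousComponent i p) := by
      rw [← smul_eq_C_mul, smul_smul, inv_mul_cancel₀ (pow_ne_zero _ two_ne_zero), one_smul]
    rw [h3]
    exact Ideal.mul_mem_left _ _ h1
  · intro h
    rw [hsum]
    refine Ideal.sum_mem _ fun i _ => ?_
    rw [smul_eq_C_mul]
    exact Ideal.mul_mem_left _ _ (hhom p h i)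

private theorem SYC_sub_mem (p : RR κ) : p - C (constantCoeff p) ∈ mm κ := by
  have h : mm κ = Ideal.span (X '' (Set.univ : Set (Fin κ))) := by
    rw [Set.image_univ]
    rfl
  rw [h, mem_ideal_span_X_image]
  intro m hm
  by_contra h'
  push Not at h'
  have hm0 : m = 0 := by
    ext i
    exact h' i (Set.mem_univ i)
  subst hm0
  rw [MvPolynomial.mem_support_iff] at hm
  apply hm
  simp [constantCoeff_eq]

private theorem SYC_eq_mm {𝔭 : Ideal (RR κ)} (hp : 𝔭.IsPrime) (h : ∀ i, X i ∈ 𝔭) :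
    𝔭 = mm κ := by
  have h1 : mm κ ≤ 𝔭 := by
    unfold mm
    rw [Ideal.span_le]
    rintro _ ⟨i, rfl⟩
    exact h i
  refine le_antisymm (fun p hp' => ?_) h1
  have h2 := SYC_sub_mem p
  have h3 : C (constantCoeff p) ∈ 𝔭 := by
    have := 𝔭.sub_mem hp' (h1 h2)
    rwa [sub_sub_cancel] at this
  by_cases h4 : constantCoeff p = 0
  · rwa [h4, C_0, sub_zero] at h2
  · exfalso
    apply hp.ne_top
    rw [Ideal.eq_top_iff_one]
    have h5 := 𝔭.mul_mem_left (C (constantCoeff p)⁻¹) h3
    rwa [← C_mul, inv_mul_cancel₀ h4, C_1] at h5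

/-- The integrality statement. -/
private theorem SYC_int {K : Type} [Field K] [Algebra (RR κ) K] {f : RR κ →+* RR κ}
    {φ : K →+* K} (hφ : ∀ p, φ (algebraMap (RR κ) K p) = algebraMap (RR κ) K (f p))
    (a : RR κ) (ha : algebraMap (RR κ) K a ≠ 0) (N : ℕ) :
    ∀ P : Polynomial (RR κ), P.natDegree ≤ N → P.map (algebraMap (RR κ) K) ≠ 0 →
      algebraMap (RR κ) K (P.eval₂ f a) = 0 →
      ∃ a' c : RR κ, algebraMap (RR κ) K (a * a') = algebraMap (RR κ) K (f c) ∧
        algebraMap (RR κ) K c ≠ 0 := by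
  induction N with
  | zero =>
    intro P hP h1 h2
    exfalso
    rw [Nat.le_zero] at hP
    rw [Polynomial.eq_C_of_natDegree_eq_zero hP, Polynomial.eval₂_C, ← hφ] at h2
    apply h1
    rw [Polynomial.eq_C_of_natDegree_eq_zero hP, Polynomial.map_C]
    rw [(map_eq_zero φ).1 h2, Polynomial.C_0]
  | succ N ih =>
    intro P hP h1 h2
    have hdiv := Polynomial.divX_mul_X_add P
    have hev : P.eval₂ f a = P.divX.eval₂ f a * a + f (P.coeff 0) := by
      conv_lhs => rw [← hdiv]
      rw [Polynomial.eval₂_add, Polynomial.eval₂_mul_X, Polynomial.eval₂_C]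
    by_cases hc : algebraMap (RR κ) K (P.coeff 0) = 0
    · refine ih P.divX ?_ ?_ ?_
      · rw [Polynomial.natDegree_divX_eq_natDegree_tsub_one]
        omega
      · intro h3
        apply h1
        rw [← hdiv, Polynomial.map_add, Polynomial.map_mul, h3, Polynomial.map_C, hc]
        simp
      · rw [hev, map_add, ← hφ, hc, map_zero, add_zero, map_mul] at h2
        exact (mul_eq_zero.1 h2).resolve_right ha
    · refine ⟨-(P.divX.eval₂ f a), P.coeff 0, ?_, hc⟩
      rw [hev, map_add] at h2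
      rw [mul_neg, map_neg, mul_comm a]
      exact (eq_neg_of_add_eq_zero_right h2).symm

private theorem SYC_gen {A B : Type} [CommRing A] [CommRing B] {f : A →+* B} (h : f.Finite) :
    ∃ s : Finset B, ∀ p : B, ∃ c : B → A, p = ∑ e ∈ s, f (c e) * e := by
  let _ := f.toAlgebra
  obtain ⟨s, hs⟩ := (show Module.Finite A B from h).fg_top
  refine ⟨s, fun p => ?_⟩
  have hp : p ∈ Submodule.span A (s : Set B) := by
    rw [hs]
    trivial
  obtain ⟨c, _, hc⟩ := Submodule.mem_span_finset.1 hp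
  exact ⟨c, hc.symm⟩

private theorem SYC_div {K : Type} [Field K] {x y z : K} (hy : y ≠ 0) (hz : z ≠ 0) :
    x / y = (y * z)⁻¹ * (x * z) := by
  field_simp

private theorem SYC_two {K : Type} [Field K] [Algebra ℂ K] {x : K} (h : x = (2 : ℂ) • x) :
    x = 0 := by
  rw [two_smul] at h
  exact left_eq_add.1 h

/-- SYC: construction of the data -/
theorem exists_sys {d : ℕ} {F : Fin κ → RR κ} (hF : NonDeg d F)
    (hfin : (phi F).toRingHom.Finite) (𝔭 : Ideal (RR κ)) (hp : 𝔭.IsPrime)
    (hhom : ∀ p ∈ 𝔭, ∀ i, homogeneousComponent i p ∈ 𝔭) (hcomap : 𝔭.comap (phi F) = 𝔭)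
    (hrad : (𝔭.map (phi F)).radical = 𝔭) (hne : 𝔭 ≠ mm κ)
    (hDER1 : ∀ (K : Type) [Field K] [Algebra ℂ K] (x : Fin κ → K),
      IntermediateField.adjoin ℂ (Set.range x) = ⊤ →
      ∃ (n : ℕ) (l : Fin n → Fin κ) (der : Fin n → Derivation ℂ K K),
      IsTranscendenceBasis ℂ (fun j => x (l j)) ∧
      (∀ k j, der k (x (l j)) = if k = j then 1 else 0) ∧
      (∀ (D : Derivation ℂ K K) (f : K), D f = ∑ k, D (x (l k)) * der k f))
    (hDER2 : ∀ (K : Type) [Field K] [Algebra ℂ K] (φ : K →ₐ[ℂ] K),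
      FiniteDimensional φ.fieldRange K → ∀ D : Derivation ℂ K K,
      ∃ D' : Derivation ℂ K K, ∀ f, D' (φ f) = φ (D f)) :
    ∃ (K : Type) (_ : Field K) (_ : Algebra ℂ K) (_ : Algebra (RR κ) K)
      (_ : IsScalarTower ℂ (RR κ) K) (n : ℕ) (S : Sys κ d n K),
      RingHom.ker (algebraMap (RR κ) K) = 𝔭 ∧ S.F = F := by
  classical
  let A := RR κ ⧸ 𝔭
  let K := FractionRing A
  have hmk : ∀ p : RR κ, algebraMap (RR κ) K p = algebraMap A K (Ideal.Quotient.mk 𝔭 p) :=
    fun p => IsScalarTower.algebraMap_apply (RR κ) A K p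
  have hker : ∀ p : RR κ, algebraMap (RR κ) K p = 0 ↔ p ∈ 𝔭 := by
    intro p
    rw [hmk, map_eq_zero_iff _ (IsFractionRing.injective A K), Ideal.Quotient.eq_zero_iff_mem]
  have hfrac : ∀ f : K, ∃ a b : RR κ, algebraMap (RR κ) K b ≠ 0 ∧
      f = algebraMap (RR κ) K a / algebraMap (RR κ) K b := by
    intro f
    obtain ⟨a, b, hb, hf⟩ := IsFractionRing.div_surjective (A := A) f
    obtain ⟨a, rfl⟩ := Ideal.Quotient.mk_surjective a
    obtain ⟨b, rfl⟩ := Ideal.Quotient.mk_surjective b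
    refine ⟨a, b, ?_, ?_⟩
    · rw [hmk, Ne, map_eq_zero_iff _ (IsFractionRing.injective A K)]
      exact nonZeroDivisors.ne_zero hb
    · rw [← hf, hmk, hmk]
  -- extension of endomorphisms
  have hext : ∀ f : RR κ →ₐ[ℂ] RR κ, (∀ p, f p ∈ 𝔭 ↔ p ∈ 𝔭) →
      ∃ φ : K →ₐ[ℂ] K, ∀ p, φ (algebraMap (RR κ) K p) = algebraMap (RR κ) K (f p) := by
    intro f hf
    let g : A →ₐ[ℂ] A := Ideal.quotientMapₐ 𝔭 f (fun p hp' => (hf p).2 hp')
    have hg : Function.Injective g := by
      rw [injective_iff_map_eq_zero]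
      intro x hx
      obtain ⟨x, rfl⟩ := Ideal.Quotient.mk_surjective x
      have hx' : Ideal.Quotient.mk 𝔭 (f x) = 0 := hx
      rw [Ideal.Quotient.eq_zero_iff_mem, hf] at hx'
      exact Ideal.Quotient.eq_zero_iff_mem.2 hx'
    let g' : A →ₐ[ℂ] K := (IsScalarTower.toAlgHom ℂ A K).comp g
    have hg' : Function.Injective g' := (IsFractionRing.injective A K).comp hg
    refine ⟨IsFractionRing.liftAlgHom hg', fun p => ?_⟩
    rw [hmk, hmk]
    exact IsFractionRing.lift_algebraMap hg' _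
  obtain ⟨φ, hφ⟩ := hext (phi F) (fun p => by
    conv_rhs => rw [← hcomap]
    rfl)
  obtain ⟨ρ, hρ⟩ := hext (SYC_s κ) (SYC_mem_iff hhom)
  have hint : ∀ a : RR κ, algebraMap (RR κ) K a ≠ 0 → ∃ a' c : RR κ,
      algebraMap (RR κ) K (a * a') = algebraMap (RR κ) K (phi F c) ∧
        algebraMap (RR κ) K c ≠ 0 := by
    intro a ha
    obtain ⟨P, hP, hP0⟩ := RingHom.IsIntegral.of_finite hfin a
    refine SYC_int (f := (phi F).toRingHom) (φ := φ.toRingHom) hφ a ha P.natDegree P le_rfl ?_ ?_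
    · exact (hP.map _).ne_zero
    · rw [hP0, map_zero]
  have hfinK : FiniteDimensional φ.fieldRange K := by
    obtain ⟨s, hs⟩ := SYC_gen hfin
    refine ⟨⟨s.image (algebraMap (RR κ) K), ?_⟩⟩
    rw [eq_top_iff]
    rintro x -
    obtain ⟨a, b, hb, rfl⟩ := hfrac x
    obtain ⟨b', c, hbc, hc⟩ := hint b hb
    obtain ⟨u, hu⟩ := hs (a * b')
    have hφc : φ (algebraMap (RR κ) K c) ≠ 0 := by
      rw [Ne, map_eq_zero]
      exact hc
    have h1 : algebraMap (RR κ) K a / algebraMap (RR κ) K b =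
        ∑ e ∈ s, (φ ((algebraMap (RR κ) K c)⁻¹ * algebraMap (RR κ) K (u e))) *
          algebraMap (RR κ) K e := by
      have h2 : algebraMap (RR κ) K (a * b') =
          ∑ e ∈ s, φ (algebraMap (RR κ) K (u e)) * algebraMap (RR κ) K e := by
        rw [hu, map_sum]
        refine Finset.sum_congr rfl fun e _ => ?_
        rw [map_mul, hφ]
        rfl
      have h3 : ∑ e ∈ s, (φ ((algebraMap (RR κ) K c)⁻¹ * algebraMap (RR κ) K (u e))) *
          algebraMap (RR κ) K e = (φ (algebraMap (RR κ) K c))⁻¹ * algebraMap (RR κ) K (a * b') := by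
        rw [h2, Finset.mul_sum]
        refine Finset.sum_congr rfl fun e _ => ?_
        rw [map_mul, map_inv₀, mul_assoc]
      rw [h3, hφ, ← hbc, map_mul, map_mul]
      have hb' : algebraMap (RR κ) K b' ≠ 0 := by
        intro h4
        rw [map_mul, h4, mul_zero, ← hφ] at hbc
        exact hφc hbc.symm
      exact SYC_div hb hb'
    rw [h1]
    refine Submodule.sum_mem _ fun e he => ?_
    have h5 : φ ((algebraMap (RR κ) K c)⁻¹ * algebraMap (RR κ) K (u e)) *
        algebraMap (RR κ) K e = (⟨φ ((algebraMap (RR κ) K c)⁻¹ * algebraMap (RR κ) K (u e)),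
          ⟨_, rfl⟩⟩ : φ.fieldRange) • algebraMap (RR κ) K e := rfl
    rw [h5]
    exact Submodule.smul_mem _ _ (Submodule.subset_span (by
      rw [Finset.coe_image]
      exact ⟨e, he, rfl⟩))
  have hgen : IntermediateField.adjoin ℂ (Set.range (xb κ K)) = ⊤ := by
    have h1 : ∀ a : RR κ, algebraMap (RR κ) K a ∈
        IntermediateField.adjoin ℂ (Set.range (xb κ K)) := by
      intro a
      have h2 : algebraMap (RR κ) K a = aeval (xb κ K) a := by
        have h3 : (IsScalarTower.toAlgHom ℂ (RR κ) K) = aeval (xb κ K) := by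
          ext i
          simp [xb]
        rw [← h3]
        rfl
      rw [h2]
      have h4 : aeval (xb κ K) a ∈ Algebra.adjoin ℂ (Set.range (xb κ K)) := by
        rw [Algebra.adjoin_range_eq_range_aeval]
        exact ⟨a, rfl⟩
      exact IntermediateField.algebra_adjoin_le_adjoin _ _ h4
    rw [eq_top_iff]
    rintro x -
    obtain ⟨a, b, _, rfl⟩ := hfrac x
    exact div_mem (h1 a) (h1 b)
  obtain ⟨n, l, der, htrb, hderx, hspan⟩ := hDER1 K (xb κ K) hgen
  choose Dt hDt using fun k => hDER2 K φ hfinK (der k)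
  have hρx : ∀ i, ρ (xb κ K i) = (2 : ℂ) • xb κ K i := by
    intro i
    rw [xb, hρ, SYC_s, aeval_X, Algebra.smul_def, map_mul, Algebra.smul_def,
      ← IsScalarTower.algebraMap_apply ℂ (RR κ) K]
  have hn : 0 < n := by
    by_contra hn
    have hn0 : n = 0 := by omega
    subst hn0
    have halg : Algebra.IsAlgebraic ℂ K := htrb.isEmpty_iff_isAlgebraic.1 inferInstance
    apply hne
    refine SYC_eq_mm hp fun i => ?_
    obtain ⟨c, hc⟩ := (IsAlgClosed.algebraMap_bijective_of_isIntegral (k := ℂ) (K := K)).2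
      (xb κ K i)
    have h1 := hρx i
    rw [← hc, AlgHom.commutes] at h1
    have h2 := SYC_two h1
    rw [hc] at h2
    exact (hker _).1 h2
  have hrad' : ∃ L : ℕ, (RingHom.ker (algebraMap (RR κ) K)) ^ L ≤
      Ideal.map (phi F) (RingHom.ker (algebraMap (RR κ) K)) := by
    have hk : RingHom.ker (algebraMap (RR κ) K) = 𝔭 := by
      ext p
      rw [RingHom.mem_ker]
      exact hker p
    rw [hk]
    exact Ideal.exists_pow_le_of_le_radical_of_fg (le_of_eq hrad.symm)
      (IsNoetherian.noetherian 𝔭)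
  refine ⟨K, inferInstance, inferInstance, inferInstance, inferInstance, n,
    { F := F
      hF := hF
      frac := hfrac
      φ := φ
      hφ := hφ
      ρ := ρ
      hρ := hρx
      rad := hrad'
      fin := hfinK
      int := hint
      hn := hn
      l := l
      trb := htrb
      der := der
      der_x := hderx
      der_span := hspan
      Dt := Dt
      Dt_φ := hDt }, ?_, rfl⟩
  ext p
  rw [RingHom.mem_ker]
  exact hker p

end SYC

end TI
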